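import Mathlib
import Pool.Agent.Work.MP_e99821_lc.ME.Final

/-!
# The club principle, closed measure zero sets and Souslin trees

The definitions are in `Pool/Agent/Work/MP_e99821_lc/Defs.lean` (`ClubPrinciple`,
`SouslinTreeExists`, `CovMeagreAtMost`, `NonMeagreAtMost`, `DominatingAtMost`) and in
`Pool/Agent/Work/MP_e99821_lc/ME/Defs.lean` (`CovClosedNullAtMost`).

The case `𝔡 > ℵ₁`. Let `F n β` be a coherent system of finite approximations of the countable
ordinals `β`, with at most `n` elements in `F n β`. Choose a division of the natural numbers into
blocks with long gaps for all the ladders of the club sequence (possible if `𝔡 > ℵ₁`), and read the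
values of coherent tree functions from a real `w`, one block of bits of `w` for each block. At a
long gap many pairs of elements of a given ladder have pairwise disjoint small sets of conditions,
so the next block of bits makes one of the pairs comparable with probability at least one half,
given the previous bits. So every ladder forbids only a closed set of measure zero of reals `w`, and
if `ℵ₁` closed null sets do not cover the line then one `w` works for all ladders.

The case `𝔡 ≤ ℵ₁`, `non(M) ≤ ℵ₁`: a recursive construction of a tree
(`Pool/Agent/Work/MP_e99821_lc/PartB.lean`).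
-/

namespace Pool.Agent.Results.MP_e99821_lc.ClosedNullTrichotomy

open Pool.Agent.Work.MP_e99821_lc Pool.Agent.Work.MP_e99821_lc.ME Cardinal

/-- If the club principle holds then there is an `ℵ₁`-Souslin tree, or `cov(M) ≤ ℵ₁` and one of the
following holds: `𝔡 ≤ ℵ₁ < non(M)`; `ℵ₁ < 𝔡` and the line is a union of `ℵ₁` closed null sets. -/
theorem result (h : ClubPrinciple) :
    SouslinTreeExists ∨
      (CovMeagreAtMost ℵ₁ ∧
        ((DominatingAtMost ℵ₁ ∧ ¬ NonMeagreAtMost ℵ₁) ∨
          (¬ DominatingAtMost ℵ₁ ∧ CovClosedNullAtMost ℵ₁))) :=
  final.2 h

end Pool.Agent.Results.MP_e99821_lc.ClosedNullTrichotomy
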